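import Mathlib

/-!
Random sequential adsorption of `r`-mers on a one-dimensional lattice (helper47, MP_669328_pr).
-/

namespace R47.RSA
open Finset

/-- the (first sites of the) blocks of `r ≥ 1` consecutive sites all of which belong to the set `A`
of uncovered sites -/
def avail (r : ℕ) (A : Finset ℕ) : Finset ℕ :=
  A.filter fun b => 0 < r ∧ Finset.Ico b (b + r) ⊆ A

lemma mem_avail {r : ℕ} {A : Finset ℕ} {b : ℕ} :
    b ∈ avail r A ↔ b ∈ A ∧ 0 < r ∧ Finset.Ico b (b + r) ⊆ A := by
  simp [avail]

lemma card_lt {r : ℕ} {A : Finset ℕ} {b : ℕ} (hb : b ∈ avail r A) :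
    (A \ Finset.Ico b (b + r)).card < A.card := by
  refine Finset.card_lt_card (Finset.ssubset_iff_subset_ne.mpr ⟨Finset.sdiff_subset, fun h => ?_⟩)
  have h1 : b ∈ A \ Finset.Ico b (b + r) := by rw [h]; exact (mem_avail.mp hb).1
  have h2 := (mem_avail.mp hb).2.1
  simp at h1
  omega

/-- `Ex r f k A` is the expected value of `f (k + N)`, where `N` is the number of `r`-mers placed
until jamming when the set of the uncovered sites is `A`: each placement is uniform among the blocks
of `r` consecutive sites that are entirely uncovered, and the process stops when there is no such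
block. -/
noncomputable def Ex (r : ℕ) (f : ℕ → ℝ) (k : ℕ) (A : Finset ℕ) : ℝ :=
  if (avail r A).Nonempty then
    (∑ b ∈ (avail r A).attach, Ex r f (k + 1) (A \ Finset.Ico b.1 (b.1 + r))) /
      (avail r A).card
  else f k
termination_by A.card
decreasing_by exact card_lt b.2

/-- the mean of the number `C_n` of `r`-mers in the jammed configuration on `n` sites -/
noncomputable def mean (r n : ℕ) : ℝ := Ex r (fun k => (k : ℝ)) 0 (range n)

/-- the second moment of `C_n` -/
noncomputable def sec (r n : ℕ) : ℝ := Ex r (fun k => (k : ℝ) ^ 2) 0 (range n)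

/-- the recurrences for the first two moments -/
def RecStm : Prop := ∀ r : ℕ, 1 ≤ r →
  (∀ n, n < r → mean r n = 0 ∧ sec r n = 0) ∧
  (∀ m : ℕ, (m + 1 : ℝ) * mean r (m + r) = ∑ i ∈ range (m + 1), (1 + mean r i + mean r (m - i))) ∧
  (∀ m : ℕ, (m + 1 : ℝ) * sec r (m + r) = ∑ i ∈ range (m + 1),
    (1 + sec r i + sec r (m - i) + 2 * mean r i + 2 * mean r (m - i) +
      2 * mean r i * mean r (m - i)))

end R47.RSA
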