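import Mathlib

/-!
Absolutely convergent power series on `[0, 1]` (helper47).
-/

set_option linter.unusedSectionVars false

namespace R47.RSA
open PowerSeries Filter Topology

/-- absolutely summable coefficients -/
def AS (f : ℝ⟦X⟧) : Prop := Summable fun k => |coeff k f|

/-- the value at `x` -/
noncomputable def evx (x : ℝ) (f : ℝ⟦X⟧) : ℝ := ∑' k, coeff k f * x ^ k

/-- geometrically decreasing coefficients -/
def AS2 (f : ℝ⟦X⟧) : Prop := Summable fun k => |coeff k f| * 2 ^ k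

lemma AS2_iff (f : ℝ⟦X⟧) : AS2 f ↔ AS (rescale 2 f) := by
  unfold AS2 AS
  refine summable_congr fun k => ?_
  rw [coeff_rescale, abs_mul, abs_pow, abs_two, mul_comm]

lemma AS2.as {f : ℝ⟦X⟧} (h : AS2 f) : AS f := by
  refine Summable.of_nonneg_of_le (fun k => abs_nonneg _) (fun k => ?_) h
  have : (1 : ℝ) ≤ 2 ^ k := one_le_pow₀ (by norm_num)
  nlinarith [abs_nonneg (coeff k f)]

lemma term_le {x : ℝ} (h0 : 0 ≤ x) (h1 : x ≤ 1) (f : ℝ⟦X⟧) (k : ℕ) :
    ‖coeff k f * x ^ k‖ ≤ |coeff k f| := by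
  rw [Real.norm_eq_abs, abs_mul]
  have : |x ^ k| ≤ 1 := by
    rw [abs_of_nonneg (pow_nonneg h0 k)]; exact pow_le_one₀ h0 h1
  nlinarith [abs_nonneg (coeff k f)]

lemma AS.summable_norm {f : ℝ⟦X⟧} (h : AS f) {x : ℝ} (h0 : 0 ≤ x) (h1 : x ≤ 1) :
    Summable fun k => ‖coeff k f * x ^ k‖ :=
  Summable.of_nonneg_of_le (fun _ => norm_nonneg _) (fun k => term_le h0 h1 f k) h

lemma AS.summable {f : ℝ⟦X⟧} (h : AS f) {x : ℝ} (h0 : 0 ≤ x) (h1 : x ≤ 1) :
    Summable fun k => coeff k f * x ^ k := (h.summable_norm h0 h1).of_norm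

lemma AS.add {f g : ℝ⟦X⟧} (hf : AS f) (hg : AS g) : AS (f + g) := by
  refine Summable.of_nonneg_of_le (fun k => abs_nonneg _) (fun k => ?_) (Summable.add hf hg)
  rw [map_add]
  exact abs_add_le _ _

lemma AS.mul {f g : ℝ⟦X⟧} (hf : AS f) (hg : AS g) : AS (f * g) := by
  have hf' : Summable fun k => ‖coeff k f‖ := hf
  have hg' : Summable fun k => ‖coeff k g‖ := hg
  have := summable_norm_sum_mul_antidiagonal_of_summable_norm hf' hg'
  unfold AS
  refine this.congr fun n => ?_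
  rw [coeff_mul, Real.norm_eq_abs]

lemma AS2.add {f g : ℝ⟦X⟧} (hf : AS2 f) (hg : AS2 g) : AS2 (f + g) := by
  rw [AS2_iff] at *
  rw [map_add]; exact hf.add hg

lemma AS2.mul {f g : ℝ⟦X⟧} (hf : AS2 f) (hg : AS2 g) : AS2 (f * g) := by
  rw [AS2_iff] at *
  rw [map_mul]; exact hf.mul hg

lemma AS2_of_finite {f : ℝ⟦X⟧} {N : ℕ} (h : ∀ k, N ≤ k → coeff k f = 0) : AS2 f := by
  refine summable_of_ne_finset_zero (s := Finset.range N) fun k hk => ?_
  rw [Finset.mem_range, not_lt] at hk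
  rw [h k hk]; simp

lemma AS2_C (a : ℝ) : AS2 (C a) := AS2_of_finite (N := 1) fun k hk => by
  rw [coeff_C, if_neg (by omega)]

lemma AS2_X : AS2 (X : ℝ⟦X⟧) := AS2_of_finite (N := 2) fun k hk => by
  rw [coeff_X, if_neg (by omega)]

lemma AS2_one : AS2 (1 : ℝ⟦X⟧) := by
  have := AS2_C 1
  rwa [map_one] at this

lemma AS2.neg {f : ℝ⟦X⟧} (hf : AS2 f) : AS2 (-f) := by
  unfold AS2 at *
  simpa using hf

lemma AS2.sub {f g : ℝ⟦X⟧} (hf : AS2 f) (hg : AS2 g) : AS2 (f - g) := by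
  rw [sub_eq_add_neg]; exact hf.add hg.neg

lemma AS2.pow {f : ℝ⟦X⟧} (hf : AS2 f) (n : ℕ) : AS2 (f ^ n) := by
  induction n with
  | zero => rw [pow_zero]; exact AS2_one
  | succ n ih => rw [pow_succ]; exact ih.mul hf

lemma AS2_sum {ι : Type*} (s : Finset ι) (f : ι → ℝ⟦X⟧) (h : ∀ i ∈ s, AS2 (f i)) :
    AS2 (∑ i ∈ s, f i) := by
  classical
  induction s using Finset.induction_on with
  | empty => rw [Finset.sum_empty, ← map_zero (C (R := ℝ))]; exact AS2_C 0
  | insert a s ha ih =>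
    rw [Finset.sum_insert ha]
    exact (h a (Finset.mem_insert_self a s)).add
      (ih fun i hi => h i (Finset.mem_insert_of_mem hi))

lemma evx_add {f g : ℝ⟦X⟧} (hf : AS f) (hg : AS g) {x : ℝ} (h0 : 0 ≤ x) (h1 : x ≤ 1) :
    evx x (f + g) = evx x f + evx x g := by
  unfold evx
  rw [← (hf.summable h0 h1).tsum_add (hg.summable h0 h1)]
  refine tsum_congr fun k => ?_
  rw [map_add]; ring

lemma evx_mul {f g : ℝ⟦X⟧} (hf : AS f) (hg : AS g) {x : ℝ} (h0 : 0 ≤ x) (h1 : x ≤ 1) :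
    evx x (f * g) = evx x f * evx x g := by
  unfold evx
  rw [tsum_mul_tsum_eq_tsum_sum_antidiagonal_of_summable_norm (hf.summable_norm h0 h1)
    (hg.summable_norm h0 h1)]
  refine tsum_congr fun n => ?_
  rw [coeff_mul, Finset.sum_mul]
  refine Finset.sum_congr rfl fun p hp => ?_
  rw [Finset.HasAntidiagonal.mem_antidiagonal] at hp
  rw [← hp, pow_add]; ring

lemma evx_C (x a : ℝ) : evx x (C a) = a := by
  unfold evx
  rw [tsum_eq_single 0]
  · simp
  · intro k hk
    rw [coeff_C, if_neg hk, zero_mul]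

lemma evx_one (x : ℝ) : evx x (1 : ℝ⟦X⟧) = 1 := by
  have := evx_C x 1
  rwa [map_one] at this

lemma evx_X (x : ℝ) : evx x (X : ℝ⟦X⟧) = x := by
  unfold evx
  rw [tsum_eq_single 1]
  · simp
  · intro k hk
    rw [coeff_X, if_neg hk, zero_mul]

lemma evx_neg (x : ℝ) (f : ℝ⟦X⟧) : evx x (-f) = - evx x f := by
  unfold evx
  rw [← tsum_neg]
  refine tsum_congr fun k => ?_
  rw [map_neg]; ring

lemma evx_sub {f g : ℝ⟦X⟧} (hf : AS f) (hg : AS2 g) {x : ℝ} (h0 : 0 ≤ x) (h1 : x ≤ 1) :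
    evx x (f - g) = evx x f - evx x g := by
  rw [sub_eq_add_neg, evx_add hf hg.neg.as h0 h1, evx_neg]; ring

lemma evx_pow {f : ℝ⟦X⟧} (hf : AS2 f) {x : ℝ} (h0 : 0 ≤ x) (h1 : x ≤ 1) (n : ℕ) :
    evx x (f ^ n) = evx x f ^ n := by
  induction n with
  | zero => rw [pow_zero, pow_zero, evx_one]
  | succ n ih => rw [pow_succ, pow_succ, evx_mul (hf.pow n).as hf.as h0 h1, ih]

lemma evx_sum {ι : Type*} (s : Finset ι) (f : ι → ℝ⟦X⟧) (h : ∀ i ∈ s, AS2 (f i)) {x : ℝ}
    (h0 : 0 ≤ x) (h1 : x ≤ 1) : evx x (∑ i ∈ s, f i) = ∑ i ∈ s, evx x (f i) := by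
  classical
  induction s using Finset.induction_on with
  | empty => rw [Finset.sum_empty, Finset.sum_empty, ← map_zero (C (R := ℝ)), evx_C]
  | insert a s ha ih =>
    rw [Finset.sum_insert ha, Finset.sum_insert ha,
      evx_add (h a (Finset.mem_insert_self a s)).as
        (AS2_sum s f fun i hi => h i (Finset.mem_insert_of_mem hi)).as h0 h1,
      ih fun i hi => h i (Finset.mem_insert_of_mem hi)]

/-- the series of `exp (c x^k)` -/
noncomputable def expS (c : ℝ) (k : ℕ) : ℝ⟦X⟧ :=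
  PowerSeries.mk fun n => if k ∣ n then c ^ (n / k) / ((n / k).factorial : ℝ) else 0

lemma expS_inj {k : ℕ} (hk : 0 < k) : Function.Injective fun j : ℕ => k * j :=
  fun _ _ h => Nat.eq_of_mul_eq_mul_left hk h

lemma coeff_expS_mul (c : ℝ) {k : ℕ} (hk : 0 < k) (j : ℕ) :
    coeff (k * j) (expS c k) = c ^ j / (j.factorial : ℝ) := by
  rw [expS, coeff_mk, if_pos (dvd_mul_right k j), Nat.mul_div_cancel_left _ hk]

lemma expS_AS2 (c : ℝ) {k : ℕ} (hk : 0 < k) : AS2 (expS c k) := by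
  unfold AS2
  rw [← (expS_inj hk).summable_iff]
  · have h := Real.summable_pow_div_factorial (|c| * 2 ^ k)
    refine h.congr fun j => ?_
    simp only [Function.comp_apply]
    rw [coeff_expS_mul c hk, abs_div, abs_pow, Nat.abs_cast, pow_mul, mul_pow]
    ring
  · intro n hn
    rw [expS, coeff_mk, if_neg, abs_zero, zero_mul]
    rintro ⟨j, hj⟩
    exact hn ⟨j, hj.symm⟩

lemma evx_expS (c : ℝ) {k : ℕ} (hk : 0 < k) (x : ℝ) :
    evx x (expS c k) = Real.exp (c * x ^ k) := by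
  have h1 : HasSum (fun j : ℕ => (c * x ^ k) ^ j / (j.factorial : ℝ)) (Real.exp (c * x ^ k)) := by
    rw [Real.exp_eq_exp_ℝ]
    exact NormedSpace.expSeries_div_hasSum_exp (c * x ^ k)
  have h2 : HasSum (fun n => coeff n (expS c k) * x ^ n) (Real.exp (c * x ^ k)) := by
    rw [← (expS_inj hk).hasSum_iff]
    · refine h1.congr_fun fun j => ?_
      simp only [Function.comp_apply]
      rw [coeff_expS_mul c hk, pow_mul, mul_pow]
      ring
    · intro n hn
      rw [expS, coeff_mk, if_neg, zero_mul]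
      rintro ⟨j, hj⟩
      exact hn ⟨j, hj.symm⟩
  exact h2.tsum_eq

lemma deriv_expS (c : ℝ) (k : ℕ) :
    d⁄dX ℝ (expS c (k + 1)) = C (c * (k + 1)) * X ^ k * expS c (k + 1) := by
  ext n
  rw [coeff_derivative, mul_assoc, coeff_C_mul, coeff_X_pow_mul']
  by_cases hd : (k + 1) ∣ (n + 1)
  · obtain ⟨j, hj⟩ := hd
    obtain ⟨i, rfl⟩ : ∃ i, j = i + 1 := ⟨j - 1, by
      rcases j with _ | j
      · omega
      · omega⟩
    have h1 : n = k + (k + 1) * i := by
      have : (k + 1) * (i + 1) = (k + 1) * i + (k + 1) := by ring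
      omega
    have h2 : n + 1 = (k + 1) * (i + 1) := hj
    rw [if_pos (by omega), show n - k = (k + 1) * i by omega,
      coeff_expS_mul c (Nat.succ_pos k), h2, coeff_expS_mul c (Nat.succ_pos k)]
    have h3 : (n : ℝ) + 1 = (k + 1) * (i + 1) := by exact_mod_cast h2
    rw [h3, Nat.factorial_succ, pow_succ]
    push_cast
    have h4 : (i.factorial : ℝ) ≠ 0 := by positivity
    have h5 : (i : ℝ) + 1 ≠ 0 := by positivity
    field_simp
  · have h1 : coeff (n + 1) (expS c (k + 1)) = 0 := by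
      rw [expS, coeff_mk, if_neg hd]
    rw [h1, zero_mul]
    split_ifs with hkn
    · rw [expS, coeff_mk, if_neg, mul_zero]
      rintro ⟨j, hj⟩
      apply hd
      refine ⟨j + 1, ?_⟩
      have : (k + 1) * (j + 1) = (k + 1) * j + (k + 1) := by ring
      omega
    · rw [mul_zero]

/-- the series of `exp (a ∑_{k=1}^{m} x^k/k)` -/
noncomputable def EP (a : ℝ) (m : ℕ) : ℝ⟦X⟧ := ∏ k ∈ Finset.range m, expS (a / (k + 1)) (k + 1)

lemma EP_succ (a : ℝ) (m : ℕ) : EP a (m + 1) = EP a m * expS (a / (m + 1)) (m + 1) :=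
  Finset.prod_range_succ _ _

lemma EP_AS2 (a : ℝ) (m : ℕ) : AS2 (EP a m) := by
  induction m with
  | zero => unfold EP; rw [Finset.prod_range_zero]; exact AS2_one
  | succ m ih => rw [EP_succ]; exact ih.mul (expS_AS2 _ (Nat.succ_pos m))

lemma evx_EP (a : ℝ) (m : ℕ) {x : ℝ} (h0 : 0 ≤ x) (h1 : x ≤ 1) :
    evx x (EP a m) = Real.exp (a * ∑ k ∈ Finset.range m, x ^ (k + 1) / (k + 1)) := by
  induction m with
  | zero => unfold EP; rw [Finset.prod_range_zero, evx_one]; simp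
  | succ m ih =>
    rw [EP_succ, evx_mul (EP_AS2 a m).as (expS_AS2 _ (Nat.succ_pos m)).as h0 h1, ih,
      evx_expS _ (Nat.succ_pos m), ← Real.exp_add, Finset.sum_range_succ]
    congr 1
    simp only [Nat.succ_eq_add_one]
    ring

/-- `1 + X + ... + X^(m-1)` -/
noncomputable def geo (m : ℕ) : ℝ⟦X⟧ := ∑ k ∈ Finset.range m, X ^ k

lemma one_sub_mul_geo (m : ℕ) : (1 - X) * geo m = 1 - X ^ m := by
  have := mul_geom_sum (X : ℝ⟦X⟧) m
  unfold geo
  linear_combination -this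

lemma deriv_EP (a : ℝ) (m : ℕ) : d⁄dX ℝ (EP a m) = C a * geo m * EP a m := by
  induction m with
  | zero => unfold EP geo; simp
  | succ m ih =>
    rw [EP_succ, Derivation.leibniz, deriv_expS, ih]
    simp only [smul_eq_mul]
    have h1 : geo (m + 1) = geo m + X ^ m := Finset.sum_range_succ _ _
    have h2 : a / ((m : ℝ) + 1) * (m + 1) = a := by field_simp
    rw [h1, h2]
    ring

lemma EP_const (a : ℝ) (m : ℕ) : constantCoeff (EP a m) = 1 := by
  unfold EP
  rw [map_prod]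
  refine Finset.prod_eq_one fun k _ => ?_
  rw [← coeff_zero_eq_constantCoeff_apply, expS, coeff_mk, if_pos (dvd_zero _), Nat.zero_div]
  simp

lemma EP_mul_neg (a : ℝ) (m : ℕ) : EP a m * EP (-a) m = 1 := by
  apply derivative.ext
  · rw [Derivation.leibniz, deriv_EP, deriv_EP, Derivation.map_one_eq_zero]
    simp only [smul_eq_mul, map_neg]
    ring
  · rw [map_mul, EP_const, EP_const, map_one, mul_one]

/-- the antiderivative without constant term -/
noncomputable def integ (f : ℝ⟦X⟧) : ℝ⟦X⟧ :=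
  PowerSeries.mk fun n => if n = 0 then 0 else coeff (n - 1) f / n

lemma deriv_integ (f : ℝ⟦X⟧) : d⁄dX ℝ (integ f) = f := by
  ext n
  rw [coeff_derivative, integ, coeff_mk, if_neg (Nat.succ_ne_zero n), Nat.add_sub_cancel]
  push_cast
  have : (n : ℝ) + 1 ≠ 0 := by positivity
  field_simp

lemma integ_const (f : ℝ⟦X⟧) : constantCoeff (integ f) = 0 := by
  rw [← coeff_zero_eq_constantCoeff_apply, integ, coeff_mk, if_pos rfl]

lemma coeff_integ_succ (f : ℝ⟦X⟧) (n : ℕ) : coeff (n + 1) (integ f) = coeff n f / (n + 1) := by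
  rw [integ, coeff_mk, if_neg (Nat.succ_ne_zero n), Nat.add_sub_cancel]
  push_cast
  rfl

lemma integ_AS {f : ℝ⟦X⟧} (hf : AS f) : AS (integ f) := by
  unfold AS
  rw [← summable_nat_add_iff 1]
  refine Summable.of_nonneg_of_le (fun k => abs_nonneg _) (fun k => ?_) hf
  rw [coeff_integ_succ, abs_div]
  have : (1 : ℝ) ≤ |(k : ℝ) + 1| := by
    rw [abs_of_nonneg (by positivity)]; linarith [Nat.cast_nonneg (α := ℝ) k]
  exact div_le_self (abs_nonneg _) this

lemma integ_AS2 {f : ℝ⟦X⟧} (hf : AS2 f) : AS2 (integ f) := by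
  unfold AS2
  rw [← summable_nat_add_iff 1]
  refine Summable.of_nonneg_of_le (fun k => by positivity) (fun k => ?_) (Summable.mul_left 2 hf)
  rw [coeff_integ_succ, abs_div]
  have : (1 : ℝ) ≤ |(k : ℝ) + 1| := by
    rw [abs_of_nonneg (by positivity)]; linarith [Nat.cast_nonneg (α := ℝ) k]
  have h2 : |coeff k f| / |(k : ℝ) + 1| ≤ |coeff k f| := div_le_self (abs_nonneg _) this
  calc |coeff k f| / |(k : ℝ) + 1| * 2 ^ (k + 1) ≤ |coeff k f| * 2 ^ (k + 1) :=
        mul_le_mul_of_nonneg_right h2 (by positivity)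
    _ = 2 * (|coeff k f| * 2 ^ k) := by ring

lemma evx_integ {f : ℝ⟦X⟧} (hf : AS f) {x : ℝ} (h0 : 0 ≤ x) (h1 : x ≤ 1) :
    evx x (integ f) = ∫ y in (0 : ℝ)..x, evx y f := by
  have hs := intervalIntegral.hasSum_intervalIntegral_of_summable_norm (a := 0) (b := x)
    (f := fun k : ℕ => (⟨fun y => coeff k f * y ^ k, by fun_prop⟩ : C(ℝ, ℝ))) ?_
  · have h2 : ∀ k : ℕ, (∫ y in (0 : ℝ)..x, coeff k f * y ^ k) = coeff (k + 1) (integ f) * x ^ (k + 1) := by
      intro k
      rw [intervalIntegral.integral_const_mul, integral_pow, coeff_integ_succ]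
      rw [zero_pow (Nat.succ_ne_zero k)]
      ring
    simp only [ContinuousMap.coe_mk] at hs
    simp only [h2] at hs
    have h3 : evx x (integ f) = ∑' k, coeff (k + 1) (integ f) * x ^ (k + 1) := by
      unfold evx
      rw [((integ_AS hf).summable h0 h1).tsum_eq_zero_add]
      have : coeff 0 (integ f) = 0 := by
        rw [coeff_zero_eq_constantCoeff_apply, integ_const]
      rw [this]; ring
    rw [h3, hs.tsum_eq]
    rfl
  · refine Summable.of_nonneg_of_le (fun _ => norm_nonneg _) (fun k => ?_) hf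
    rw [ContinuousMap.norm_le _ (abs_nonneg _)]
    rintro ⟨y, hy⟩
    have hy' : y ∈ Set.uIcc 0 x := hy
    rw [Set.uIcc_of_le h0] at hy'
    simp only [ContinuousMap.restrict_apply, ContinuousMap.coe_mk]
    exact term_le hy'.1 (hy'.2.trans h1) f k

/-- `1 + X + X^2 + ...` -/
noncomputable def gg : ℝ⟦X⟧ := PowerSeries.mk fun _ => 1

lemma one_sub_mul_gg : (1 - X) * gg = 1 := by
  unfold gg
  have := mk_one_mul_one_sub_eq_one ℝ
  rw [mul_comm]
  exact this

lemma coeff_mul_gg (f : ℝ⟦X⟧) (n : ℕ) : coeff n (f * gg) = ∑ k ∈ Finset.range (n + 1), coeff k f := by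
  rw [coeff_mul, Finset.Nat.sum_antidiagonal_eq_sum_range_succ_mk]
  refine Finset.sum_congr rfl fun k _ => ?_
  simp [gg]

lemma evx_at_one (f : ℝ⟦X⟧) : evx 1 f = ∑' k, coeff k f := by
  unfold evx; simp

/-- division by `1 - X` -/
lemma AS_mul_gg {f : ℝ⟦X⟧} (hf : AS2 f) (h : evx 1 f = 0) : AS (f * gg) := by
  have hs : Summable fun k => coeff k f := by
    have := hf.as.summable (x := 1) zero_le_one le_rfl
    simpa using this
  have h1 : ∀ n, |coeff n (f * gg)| ≤ ∑' k, |coeff (k + (n + 1)) f| := by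
    intro n
    have h2 := hs.sum_add_tsum_nat_add (n + 1)
    rw [← evx_at_one, h, ← coeff_mul_gg] at h2
    have h3 : coeff n (f * gg) = - ∑' k, coeff (k + (n + 1)) f := by linarith
    have hs' : Summable fun k => ‖coeff (k + (n + 1)) f‖ :=
      (summable_nat_add_iff (f := fun k => |coeff k f|) (n + 1)).2 hf.as
    rw [h3, abs_neg, ← Real.norm_eq_abs]
    exact norm_tsum_le_tsum_norm hs'
  set M := ∑' k, |coeff k f| * 2 ^ k with hM
  have h4 : ∀ n, ∑' k, |coeff (k + (n + 1)) f| ≤ M * (1 / 2) ^ n := by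
    intro n
    have hs1 : Summable fun k => |coeff (k + (n + 1)) f| :=
      (summable_nat_add_iff (f := fun k => |coeff k f|) (n + 1)).2 hf.as
    have hs2 : Summable fun k => |coeff (k + (n + 1)) f| * 2 ^ (k + (n + 1)) :=
      (summable_nat_add_iff (f := fun k => |coeff k f| * 2 ^ k) (n + 1)).2 hf
    have h5 : ∑' k, |coeff (k + (n + 1)) f| * 2 ^ (k + (n + 1)) ≤ M := by
      have := (Summable.sum_add_tsum_nat_add (f := fun k => |coeff k f| * 2 ^ k) (n + 1) hf)
      have h6 : 0 ≤ ∑ k ∈ Finset.range (n + 1), |coeff k f| * 2 ^ k :=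
        Finset.sum_nonneg fun k _ => by positivity
      linarith
    have h7 : (∑' k, |coeff (k + (n + 1)) f|) * 2 ^ n ≤
        ∑' k, |coeff (k + (n + 1)) f| * 2 ^ (k + (n + 1)) := by
      rw [← tsum_mul_right]
      refine (hs1.mul_right _).tsum_le_tsum (fun k => ?_) hs2
      refine mul_le_mul_of_nonneg_left ?_ (abs_nonneg _)
      exact pow_le_pow_right₀ (by norm_num) (by omega)
    have h8 : (0 : ℝ) < 2 ^ n := by positivity
    have h9 : (1 / 2 : ℝ) ^ n * 2 ^ n = 1 := by rw [← mul_pow]; norm_num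
    calc ∑' k, |coeff (k + (n + 1)) f|
        = (∑' k, |coeff (k + (n + 1)) f|) * 2 ^ n * (1 / 2) ^ n := by
          rw [mul_assoc, mul_comm (2 ^ n), h9, mul_one]
      _ ≤ M * (1 / 2) ^ n := mul_le_mul_of_nonneg_right (h7.trans h5) (by positivity)
  refine Summable.of_nonneg_of_le (fun k => abs_nonneg _) (fun n => (h1 n).trans (h4 n)) ?_
  exact (summable_geometric_of_lt_one (by norm_num) (by norm_num)).mul_left M

/-- the coefficients of `f / (1 - X)^2` -/
lemma tendsto_coeff {f : ℝ⟦X⟧} (hf : AS f) :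
    Tendsto (fun n : ℕ => coeff n (f * gg * gg) / (n + 1 : ℝ)) atTop (𝓝 (evx 1 f)) := by
  have hs : Summable fun k => coeff k f := by
    have := hf.summable (x := 1) zero_le_one le_rfl
    simpa using this
  have h1 : Tendsto (fun n => coeff n (f * gg)) atTop (𝓝 (evx 1 f)) := by
    rw [evx_at_one]
    have := (hs.hasSum.tendsto_sum_nat).comp (tendsto_add_atTop_nat 1)
    refine this.congr fun n => ?_
    rw [coeff_mul_gg]; rfl
  have h2 := (h1.cesaro).comp (tendsto_add_atTop_nat 1)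
  refine h2.congr fun n => ?_
  simp only [Function.comp_apply]
  rw [coeff_mul_gg]
  push_cast
  ring

end R47.RSA
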