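import Mathlib
import Pool.Agent.R47.RSA.Defs
import Pool.Agent.R47.RSA.Ser

/-!
The variance of the jamming count (helper47).
-/

set_option linter.unusedSectionVars false

namespace R47.RSA
open PowerSeries Filter Topology

/-- `φ_r(x) = exp (-2 ∑_{k=1}^{r-1} (1 - x^k)/k)` -/
noncomputable def phi (r : ℕ) (x : ℝ) : ℝ :=
  Real.exp (-2 * ∑ k ∈ Finset.range (r - 1), (1 - x ^ (k + 1)) / (k + 1))

/-- `λ_r = ∫₀¹ φ_r`, the limit of `E C_n / n` -/
noncomputable def lam (r : ℕ) : ℝ := ∫ x in (0 : ℝ)..1, phi r x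

/-- `N_r(x) = x^(r-1) φ_r(x)⁻¹ ∫₀ˣ φ_r + (1 - r λ_r)(1 - x) - λ_r x` -/
noncomputable def NN (r : ℕ) (x : ℝ) : ℝ :=
  x ^ (r - 1) * (∫ y in (0 : ℝ)..x, phi r y) / phi r x + (1 - r * lam r) * (1 - x) - lam r * x

/-- the limit of `Var C_n / n` -/
noncomputable def vv (r : ℕ) : ℝ :=
  2 * ∫ x in (0 : ℝ)..1, phi r x *
    ((1 - x) * ∑ n ∈ Finset.range r, (1 - lam r * (n + r)) ^ 2 * x ^ n + (NN r x / (1 - x)) ^ 2)

section
variable (p : ℕ)

lemma phi_eq (x : ℝ) (h0 : 0 ≤ x) (h1 : x ≤ 1) :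
    phi (p + 1) x = evx 1 (EP (-2) p) * evx x (EP 2 p) := by
  rw [evx_EP _ _ zero_le_one le_rfl, evx_EP _ _ h0 h1, ← Real.exp_add, phi]
  congr 1
  rw [Nat.add_sub_cancel, neg_mul, neg_mul, Finset.mul_sum, Finset.mul_sum, Finset.mul_sum,
    neg_add_eq_sub, ← Finset.sum_sub_distrib, ← Finset.sum_neg_distrib]
  refine Finset.sum_congr rfl fun k _ => ?_
  rw [one_pow]
  ring

lemma ev_inv {x : ℝ} (h0 : 0 ≤ x) (h1 : x ≤ 1) : evx x (EP 2 p) * evx x (EP (-2) p) = 1 := by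
  rw [← evx_mul (EP_AS2 _ _).as (EP_AS2 _ _).as h0 h1, EP_mul_neg, evx_one]

/-- the antiderivative of `e^{2S}` -/
noncomputable def JJ : ℝ⟦X⟧ := integ (EP 2 p)

lemma lam_eq : lam (p + 1) = evx 1 (EP (-2) p) * evx 1 (JJ p) := by
  rw [JJ, evx_integ (EP_AS2 _ _).as zero_le_one le_rfl, ← intervalIntegral.integral_const_mul, lam]
  refine intervalIntegral.integral_congr fun x hx => ?_
  rw [Set.uIcc_of_le zero_le_one] at hx
  exact phi_eq p x hx.1 hx.2

/-- the centering -/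
noncomputable def aa (n : ℕ) : ℝ := lam (p + 1) * (n + (p + 1)) - 1

lemma aa_split (i m : ℕ) (h : i ≤ m) : aa p (m + (p + 1)) = aa p i + aa p (m - i) + 1 := by
  unfold aa
  rw [Nat.cast_sub h]
  push_cast
  ring

noncomputable def mser : ℝ⟦X⟧ := PowerSeries.mk fun n => mean (p + 1) n
noncomputable def gser : ℝ⟦X⟧ := PowerSeries.mk fun n => if n = 0 then 0 else mean (p + 1) (n + p)
noncomputable def em (n : ℕ) : ℝ := mean (p + 1) n - aa p n
noncomputable def eser : ℝ⟦X⟧ := PowerSeries.mk fun n => em p n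
noncomputable def sm (n : ℕ) : ℝ := sec (p + 1) n - 2 * aa p n * mean (p + 1) n + aa p n ^ 2
noncomputable def sser : ℝ⟦X⟧ := PowerSeries.mk fun n => sm p n
noncomputable def Gser : ℝ⟦X⟧ := PowerSeries.mk fun n => if n = 0 then 0 else sm p (n + p)
noncomputable def Pser : ℝ⟦X⟧ := ∑ n ∈ Finset.range (p + 1), C ((1 - lam (p + 1) * (n + (p + 1))) ^ 2) * X ^ n

variable (hrec : RecStm)
include hrec

lemma mean_lt {n : ℕ} (h : n < p + 1) : mean (p + 1) n = 0 := ((hrec (p + 1) (by omega)).1 n h).1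
lemma sec_lt {n : ℕ} (h : n < p + 1) : sec (p + 1) n = 0 := ((hrec (p + 1) (by omega)).1 n h).2

lemma mser_eq : mser p = X ^ p * gser p := by
  ext n
  rw [mser, gser, coeff_mk, coeff_X_pow_mul']
  split_ifs with h
  · rw [coeff_mk]
    split_ifs with h2
    · rw [mean_lt p hrec (by omega)]
    · rw [show n - p + p = n by omega]
  · rw [mean_lt p hrec (by omega)]

lemma deriv_gser : d⁄dX ℝ (gser p) = gg * gg + 2 * (mser p * gg) := by
  ext m
  rw [coeff_derivative, gser, coeff_mk, if_neg (Nat.succ_ne_zero m), map_add, coeff_mul_gg,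
    show (2 : ℝ⟦X⟧) = C (2 : ℝ) from (map_ofNat (C (R := ℝ)) 2).symm, coeff_C_mul, coeff_mul_gg,
    mul_comm, show m + 1 + p = m + (p + 1) by ring, (hrec (p + 1) (by omega)).2.1 m,
    Finset.sum_add_distrib, Finset.sum_add_distrib]
  have h1 : ∑ i ∈ Finset.range (m + 1), mean (p + 1) (m - i) =
      ∑ i ∈ Finset.range (m + 1), mean (p + 1) i := by
    rw [← Finset.sum_range_reflect]
    refine Finset.sum_congr rfl fun i hi => ?_
    rw [Finset.mem_range] at hi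
    congr 1
    omega
  rw [h1]
  simp only [mser, coeff_mk, gg]
  ring

lemma g_ode : (1 - X) ^ 2 * EP 2 p * gser p = JJ p := by
  have h2 : (2 : ℝ⟦X⟧) = C (2 : ℝ) := (map_ofNat (C (R := ℝ)) 2).symm
  apply derivative.ext
  · rw [JJ, deriv_integ]
    have hX : d⁄dX ℝ ((1 - X : ℝ⟦X⟧) ^ 2) = -(2 * (1 - X)) := by
      rw [pow_two, Derivation.leibniz, map_sub, Derivation.map_one_eq_zero, derivative_X]
      simp only [smul_eq_mul]
      ring
    rw [Derivation.leibniz, Derivation.leibniz, deriv_EP, hX, deriv_gser p hrec, mser_eq p hrec, ← h2]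
    simp only [smul_eq_mul]
    have h3 := one_sub_mul_gg
    have h4 := one_sub_mul_geo p
    have h5 : (1 - X : ℝ⟦X⟧) ^ 2 * (gg * gg) = 1 := by
      calc (1 - X : ℝ⟦X⟧) ^ 2 * (gg * gg) = ((1 - X) * gg) * ((1 - X) * gg) := by ring
        _ = 1 := by rw [h3, one_mul]
    have h6 : (1 - X : ℝ⟦X⟧) ^ 2 * gg = 1 - X := by
      calc (1 - X : ℝ⟦X⟧) ^ 2 * gg = (1 - X) * ((1 - X) * gg) := by ring
        _ = _ := by rw [h3, mul_one]
    have h7 : (1 - X : ℝ⟦X⟧) ^ 2 * geo p = (1 - X) * (1 - X ^ p) := by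
      calc (1 - X : ℝ⟦X⟧) ^ 2 * geo p = (1 - X) * ((1 - X) * geo p) := by ring
        _ = _ := by rw [h4]
    calc (1 - X) ^ 2 * EP 2 p * (gg * gg + 2 * (X ^ p * gser p * gg)) +
          gser p * ((1 - X) ^ 2 * (2 * geo p * EP 2 p) + EP 2 p * -(2 * (1 - X)))
        = EP 2 p * ((1 - X) ^ 2 * (gg * gg)) +
          2 * EP 2 p * gser p * (X ^ p * ((1 - X) ^ 2 * gg) + (1 - X) ^ 2 * geo p - (1 - X)) := by
          ring
      _ = EP 2 p := by rw [h5, h6, h7]; ring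
  · rw [JJ, integ_const, map_mul]
    have : constantCoeff (gser p) = 0 := by
      rw [← coeff_zero_eq_constantCoeff_apply, gser, coeff_mk, if_pos rfl]
    rw [this, mul_zero]

omit hrec in
lemma aser_eq : PowerSeries.mk (fun n => aa p n) =
    (C (lam (p + 1)) * (X + C (p + 1 : ℝ) * (1 - X)) - (1 - X)) * (gg * gg) := by
  have h3 := one_sub_mul_gg
  have h5 : (C (lam (p + 1)) * (X + C (p + 1 : ℝ) * (1 - X)) - (1 - X)) * (gg * gg) =
      C (lam (p + 1)) * (X * (gg * gg)) + C (lam (p + 1)) * (C (p + 1 : ℝ) * gg) - gg := by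
    calc _ = C (lam (p + 1)) * (X * (gg * gg)) + C (lam (p + 1)) * (C (p + 1 : ℝ) *
          (((1 - X) * gg) * gg)) - ((1 - X) * gg) * gg := by ring
      _ = _ := by rw [h3, one_mul]
  rw [h5]
  ext n
  rw [coeff_mk, map_sub, map_add, coeff_C_mul, coeff_C_mul, coeff_C_mul]
  have h6 : coeff n (gg : ℝ⟦X⟧) = 1 := by simp [gg]
  have h7 : coeff n (X * (gg * gg) : ℝ⟦X⟧) = n := by
    rcases n with _ | n
    · simp
    · rw [coeff_succ_X_mul, coeff_mul_gg]
      simp [gg]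
  rw [h6, h7, aa]
  ring

/-- the numerator -/
noncomputable def Nser : ℝ⟦X⟧ :=
  X ^ p * (EP (-2) p * JJ p) - (C (lam (p + 1)) * (X + C (p + 1 : ℝ) * (1 - X)) - (1 - X))

lemma e_eq : (1 - X) ^ 2 * eser p = Nser p := by
  have h1 : eser p = mser p - PowerSeries.mk (fun n => aa p n) := by
    ext n; simp [eser, mser, em]
  have h3 := one_sub_mul_gg
  have h5 : (1 - X : ℝ⟦X⟧) ^ 2 * (gg * gg) = 1 := by
    calc (1 - X : ℝ⟦X⟧) ^ 2 * (gg * gg) = ((1 - X) * gg) * ((1 - X) * gg) := by ring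
      _ = 1 := by rw [h3, one_mul]
  have h6 : (1 - X) ^ 2 * gser p = EP (-2) p * JJ p := by
    rw [← g_ode p hrec]
    calc (1 - X) ^ 2 * gser p = (EP 2 p * EP (-2) p) * ((1 - X) ^ 2 * gser p) := by
          rw [EP_mul_neg, one_mul]
      _ = _ := by ring
  rw [h1, aser_eq, mser_eq p hrec, Nser, ← h6]
  calc _ = X ^ p * ((1 - X) ^ 2 * gser p) -
      (C (lam (p + 1)) * (X + C (p + 1 : ℝ) * (1 - X)) - (1 - X)) * ((1 - X) ^ 2 * (gg * gg)) := by
        ring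
    _ = _ := by rw [h5, mul_one]

noncomputable def f1 : ℝ⟦X⟧ := (1 - X) * eser p

lemma f1_eq : f1 p = Nser p * gg := by
  rw [← e_eq p hrec, f1]
  calc (1 - X) * eser p = (1 - X) * eser p * ((1 - X) * gg) := by rw [one_sub_mul_gg, mul_one]
    _ = _ := by ring

omit hrec in
lemma eser_eq : eser p = f1 p * gg := by
  rw [f1]
  calc eser p = eser p * ((1 - X) * gg) := by rw [one_sub_mul_gg, mul_one]
    _ = _ := by ring

omit hrec in
lemma AS2_oneX : AS2 (1 - X : ℝ⟦X⟧) := AS2_one.sub AS2_X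

omit hrec in
lemma Nser_AS2 : AS2 (Nser p) := by
  unfold Nser
  refine (((AS2_X).pow p).mul ((EP_AS2 _ _).mul (integ_AS2 (EP_AS2 _ _)))).sub ?_
  exact ((AS2_C _).mul (AS2_X.add ((AS2_C _).mul AS2_oneX))).sub AS2_oneX

omit hrec in
lemma evx_oneX {x : ℝ} (h0 : 0 ≤ x) (h1 : x ≤ 1) : evx x (1 - X : ℝ⟦X⟧) = 1 - x := by
  rw [evx_sub AS2_one.as AS2_X h0 h1, evx_one, evx_X]

omit hrec in
lemma evx_Nser {x : ℝ} (h0 : 0 ≤ x) (h1 : x ≤ 1) : evx x (Nser p) = NN (p + 1) x := by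
  have hJ : AS2 (JJ p) := integ_AS2 (EP_AS2 _ _)
  have hE : AS2 (EP (-2) p) := EP_AS2 _ _
  have hE2 : AS2 (EP 2 p) := EP_AS2 _ _
  have hXp := AS2_X.pow p
  have hc : AS2 (C (p + 1 : ℝ) * (1 - X) : ℝ⟦X⟧) := (AS2_C _).mul AS2_oneX
  unfold Nser
  rw [evx_sub (hXp.mul (hE.mul hJ)).as (((AS2_C _).mul (AS2_X.add hc)).sub AS2_oneX) h0 h1,
    evx_mul hXp.as (hE.mul hJ).as h0 h1, evx_mul hE.as hJ.as h0 h1,
    evx_sub ((AS2_C _).mul (AS2_X.add hc)).as AS2_oneX h0 h1,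
    evx_mul (AS2_C _).as (AS2_X.add hc).as h0 h1, evx_add AS2_X.as hc.as h0 h1,
    evx_mul (AS2_C _).as AS2_oneX.as h0 h1, evx_C, evx_C, evx_oneX h0 h1, evx_X, evx_pow AS2_X h0 h1,
    evx_X, NN, Nat.add_sub_cancel]
  have h2 : (∫ y in (0 : ℝ)..x, phi (p + 1) y) = evx 1 (EP (-2) p) * evx x (JJ p) := by
    rw [JJ, evx_integ hE2.as h0 h1, ← intervalIntegral.integral_const_mul]
    refine intervalIntegral.integral_congr fun y hy => ?_
    rw [Set.uIcc_of_le h0] at hy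
    exact phi_eq p y hy.1 (hy.2.trans h1)
  have h3 := ev_inv p h0 h1
  have h4 := ev_inv p zero_le_one le_rfl
  have h5 : evx x (EP 2 p) ≠ 0 := left_ne_zero_of_mul_eq_one h3
  have h6 : evx 1 (EP (-2) p) ≠ 0 := right_ne_zero_of_mul_eq_one h4
  rw [h2, phi_eq p x h0 h1]
  have h7 : evx x (EP (-2) p) = (evx x (EP 2 p))⁻¹ := eq_inv_of_mul_eq_one_right h3
  rw [h7]
  push_cast
  field_simp
  ring

omit hrec in
lemma NN_one : NN (p + 1) 1 = 0 := by
  have h1 : phi (p + 1) 1 = 1 := by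
    unfold phi
    simp
  rw [NN, h1]
  simp only [one_pow, one_mul, div_one, sub_self, mul_zero, add_zero, mul_one]
  unfold lam
  ring

lemma f1_AS : AS (f1 p) := by
  rw [f1_eq p hrec]
  refine AS_mul_gg (Nser_AS2 p) ?_
  rw [evx_Nser p zero_le_one le_rfl, NN_one]

lemma evx_f1 {x : ℝ} (h0 : 0 ≤ x) (h1 : x < 1) : evx x (f1 p) = NN (p + 1) x / (1 - x) := by
  have h2 : (1 - X) * f1 p = Nser p := by
    rw [← e_eq p hrec, f1]; ring
  have h3 := congrArg (evx x) h2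
  rw [evx_mul AS2_oneX.as (f1_AS p hrec) h0 h1.le, evx_oneX h0 h1.le, evx_Nser p h0 h1.le] at h3
  rw [← h3]
  have : 1 - x ≠ 0 := by linarith
  field_simp

lemma sm_rec (m : ℕ) : (m + 1 : ℝ) * sm p (m + (p + 1)) =
    ∑ i ∈ Finset.range (m + 1), (sm p i + sm p (m - i) + 2 * (em p i * em p (m - i))) := by
  have h1 := (hrec (p + 1) (by omega)).2.1 m
  have h2 := (hrec (p + 1) (by omega)).2.2 m
  set a := aa p (m + (p + 1)) with ha
  have h3 : (m + 1 : ℝ) * sm p (m + (p + 1)) =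
      (m + 1 : ℝ) * sec (p + 1) (m + (p + 1)) - 2 * a * ((m + 1 : ℝ) * mean (p + 1) (m + (p + 1))) +
        (m + 1 : ℝ) * a ^ 2 := by
    unfold sm
    rw [← ha]; ring
  have h4 : (m + 1 : ℝ) * a ^ 2 = ∑ i ∈ Finset.range (m + 1), a ^ 2 := by
    rw [Finset.sum_const, Finset.card_range, nsmul_eq_mul]; push_cast; ring
  rw [h3, h1, h2, h4, Finset.mul_sum, ← Finset.sum_sub_distrib, ← Finset.sum_add_distrib]
  refine Finset.sum_congr rfl fun i hi => ?_
  rw [Finset.mem_range] at hi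
  have h5 : a = aa p i + aa p (m - i) + 1 := aa_split p i m (by omega)
  unfold sm em
  rw [h5]
  ring

lemma deriv_Gser : d⁄dX ℝ (Gser p) = 2 * (sser p * gg) + 2 * (eser p * eser p) := by
  ext m
  rw [coeff_derivative, Gser, coeff_mk, if_neg (Nat.succ_ne_zero m), map_add,
    show (2 : ℝ⟦X⟧) = C (2 : ℝ) from (map_ofNat (C (R := ℝ)) 2).symm, coeff_C_mul, coeff_mul_gg,
    coeff_C_mul, coeff_mul, Finset.Nat.sum_antidiagonal_eq_sum_range_succ_mk,
    mul_comm, show m + 1 + p = m + (p + 1) by ring, sm_rec p hrec m,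
    Finset.sum_add_distrib, Finset.sum_add_distrib]
  have h1 : ∑ i ∈ Finset.range (m + 1), sm p (m - i) =
      ∑ i ∈ Finset.range (m + 1), sm p i := by
    rw [← Finset.sum_range_reflect]
    refine Finset.sum_congr rfl fun i hi => ?_
    rw [Finset.mem_range] at hi
    congr 1
    omega
  rw [h1, ← Finset.mul_sum]
  simp only [sser, eser, coeff_mk]
  ring

lemma sser_eq : sser p = Pser p + X ^ p * Gser p := by
  ext n
  rw [sser, map_add, coeff_mk, coeff_X_pow_mul']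
  have h1 : coeff n (Pser p) = if n < p + 1 then (1 - lam (p + 1) * (n + (p + 1))) ^ 2 else 0 := by
    rw [Pser, map_sum]
    simp only [coeff_C_mul, coeff_X_pow, mul_ite, mul_one, mul_zero]
    rw [Finset.sum_ite_eq]
    simp only [Finset.mem_range]
  rw [h1]
  by_cases h2 : n < p + 1
  · rw [if_pos h2]
    have h3 : sm p n = (1 - lam (p + 1) * (n + (p + 1))) ^ 2 := by
      rw [sm, mean_lt p hrec h2, sec_lt p hrec h2, aa]; ring
    rw [h3]
    split_ifs with h4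
    · have : n - p = 0 := by omega
      rw [this, Gser, coeff_mk, if_pos rfl, add_zero]
    · rw [add_zero]
  · rw [if_neg h2, if_pos (by omega), Gser, coeff_mk, if_neg (by omega), zero_add,
      show n - p + p = n by omega]

/-- the source term -/
noncomputable def Sser : ℝ⟦X⟧ := EP 2 p * ((1 - X) * Pser p + f1 p * f1 p)

lemma G_ode : (1 - X) ^ 2 * EP 2 p * Gser p = integ (2 * Sser p) := by
  have h2 : (2 : ℝ⟦X⟧) = C (2 : ℝ) := (map_ofNat (C (R := ℝ)) 2).symm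
  apply derivative.ext
  · rw [deriv_integ]
    have hX : d⁄dX ℝ ((1 - X : ℝ⟦X⟧) ^ 2) = -(2 * (1 - X)) := by
      rw [pow_two, Derivation.leibniz, map_sub, Derivation.map_one_eq_zero, derivative_X]
      simp only [smul_eq_mul]
      ring
    rw [Derivation.leibniz, Derivation.leibniz, deriv_EP, hX, deriv_Gser p hrec, sser_eq p hrec, ← h2]
    simp only [smul_eq_mul]
    have h3 := one_sub_mul_gg
    have h4 := one_sub_mul_geo p
    have h6 : (1 - X : ℝ⟦X⟧) ^ 2 * gg = 1 - X := by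
      calc (1 - X : ℝ⟦X⟧) ^ 2 * gg = (1 - X) * ((1 - X) * gg) := by ring
        _ = _ := by rw [h3, mul_one]
    have h7 : (1 - X : ℝ⟦X⟧) ^ 2 * geo p = (1 - X) * (1 - X ^ p) := by
      calc (1 - X : ℝ⟦X⟧) ^ 2 * geo p = (1 - X) * ((1 - X) * geo p) := by ring
        _ = _ := by rw [h4]
    rw [Sser, f1]
    calc (1 - X) ^ 2 * EP 2 p * (2 * ((Pser p + X ^ p * Gser p) * gg) + 2 * (eser p * eser p)) +
          Gser p * ((1 - X) ^ 2 * (2 * geo p * EP 2 p) + EP 2 p * -(2 * (1 - X)))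
        = 2 * EP 2 p * (Pser p * ((1 - X) ^ 2 * gg) + (1 - X) ^ 2 * (eser p * eser p)) +
          2 * EP 2 p * Gser p * (X ^ p * ((1 - X) ^ 2 * gg) + (1 - X) ^ 2 * geo p - (1 - X)) := by
          ring
      _ = 2 * (EP 2 p * ((1 - X) * Pser p + (1 - X) * eser p * ((1 - X) * eser p))) := by
          rw [h6, h7]; ring
  · rw [integ_const, map_mul]
    have : constantCoeff (Gser p) = 0 := by
      rw [← coeff_zero_eq_constantCoeff_apply, Gser, coeff_mk, if_pos rfl]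
    rw [this, mul_zero]

omit hrec in
lemma Pser_AS2 : AS2 (Pser p) := AS2_sum _ _ fun n _ => (AS2_C _).mul (AS2_X.pow n)

lemma Sser_AS : AS (2 * Sser p) := by
  have h2 : (2 : ℝ⟦X⟧) = C (2 : ℝ) := (map_ofNat (C (R := ℝ)) 2).symm
  rw [h2, Sser]
  exact (AS2_C _).as.mul ((EP_AS2 _ _).as.mul ((AS2_oneX.mul (Pser_AS2 p)).as.add
    ((f1_AS p hrec).mul (f1_AS p hrec))))

lemma evx_Sser {x : ℝ} (h0 : 0 ≤ x) (h1 : x < 1) :
    evx x (2 * Sser p) = 2 * (evx x (EP 2 p) *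
      ((1 - x) * ∑ n ∈ Finset.range (p + 1), (1 - lam (p + 1) * (n + (p + 1))) ^ 2 * x ^ n +
        (NN (p + 1) x / (1 - x)) ^ 2)) := by
  have h2 : (2 : ℝ⟦X⟧) = C (2 : ℝ) := (map_ofNat (C (R := ℝ)) 2).symm
  have hf := f1_AS p hrec
  have hP := Pser_AS2 p
  have hE : AS2 (EP 2 p) := EP_AS2 _ _
  rw [h2, Sser, evx_mul (AS2_C _).as (hE.as.mul ((AS2_oneX.mul hP).as.add (hf.mul hf))) h0 h1.le,
    evx_C, evx_mul hE.as ((AS2_oneX.mul hP).as.add (hf.mul hf)) h0 h1.le,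
    evx_add (AS2_oneX.mul hP).as (hf.mul hf) h0 h1.le, evx_mul AS2_oneX.as hP.as h0 h1.le,
    evx_mul hf hf h0 h1.le, evx_oneX h0 h1.le, evx_f1 p hrec h0 h1]
  have h3 : evx x (Pser p) =
      ∑ n ∈ Finset.range (p + 1), (1 - lam (p + 1) * (n + (p + 1))) ^ 2 * x ^ n := by
    rw [Pser, evx_sum _ _ (fun n _ => (AS2_C _).mul (AS2_X.pow n)) h0 h1.le]
    refine Finset.sum_congr rfl fun n _ => ?_
    rw [evx_mul (AS2_C _).as (AS2_X.pow n).as h0 h1.le, evx_C, evx_pow AS2_X h0 h1.le, evx_X]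
  rw [h3]
  ring

lemma vv_eq : vv (p + 1) = evx 1 (EP (-2) p * integ (2 * Sser p)) := by
  have hE : AS2 (EP (-2) p) := EP_AS2 _ _
  rw [evx_mul hE.as (integ_AS (Sser_AS p hrec)) zero_le_one le_rfl,
    evx_integ (Sser_AS p hrec) zero_le_one le_rfl, vv, ← intervalIntegral.integral_const_mul,
    ← intervalIntegral.integral_const_mul]
  refine intervalIntegral.integral_congr_ae ?_
  have h1 : ∀ᵐ x : ℝ, x ≠ 1 := by
    have : (Set.Iio (1:ℝ) ∪ Set.Ioi 1) ∈ MeasureTheory.ae MeasureTheory.volume := by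
      rw [MeasureTheory.mem_ae_iff]
      have h : (Set.Iio (1:ℝ) ∪ Set.Ioi 1)ᶜ = {1} := by
        ext x; simp [le_antisymm_iff]
      rw [h]; simp
    filter_upwards [this] with x hx h
    rw [h] at hx
    simp at hx
  filter_upwards [h1] with x hx hmem
  rw [Set.uIoc_of_le zero_le_one] at hmem
  have hx1 : x < 1 := lt_of_le_of_ne hmem.2 hx
  rw [evx_Sser p hrec hmem.1.le hx1, phi_eq p x hmem.1.le hmem.2]
  push_cast
  ring

lemma Gser_eq : Gser p = EP (-2) p * integ (2 * Sser p) * gg * gg := by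
  rw [← G_ode p hrec]
  calc Gser p = (EP 2 p * EP (-2) p) * ((1 - X) * gg) * ((1 - X) * gg) * Gser p := by
        rw [EP_mul_neg, one_sub_mul_gg]; ring
    _ = _ := by ring

/-- the main theorem in the form `Var C_n / n → vv r` -/
theorem variance_tendsto : Tendsto (fun n : ℕ => (sec (p + 1) n - mean (p + 1) n ^ 2) / n) atTop
    (𝓝 (vv (p + 1))) := by
  have hE : AS2 (EP (-2) p) := EP_AS2 _ _
  have h1 := tendsto_coeff (hE.as.mul (integ_AS (Sser_AS p hrec)))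
  rw [← vv_eq p hrec, ← Gser_eq p hrec] at h1
  rw [← tendsto_add_atTop_iff_nat (p + 1)]
  -- the part of `sm`
  have h2 : Tendsto (fun n : ℕ => coeff (n + 1) (Gser p) / ((n : ℝ) + 1 + 1)) atTop
      (𝓝 (vv (p + 1))) := by
    refine (h1.comp (tendsto_add_atTop_nat 1)).congr fun n => ?_
    simp only [Function.comp_apply]
    push_cast
    rfl
  have h3 : Tendsto (fun n : ℕ => 1 + (1 - (p : ℝ)) / ((n + (p + 1) : ℕ) : ℝ)) atTop (𝓝 1) := by
    have := (tendsto_const_div_atTop_nhds_zero_nat (1 - (p : ℝ))).comp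
      (tendsto_add_atTop_nat (p + 1))
    have h := this.const_add 1
    rw [add_zero] at h
    exact h
  have h4 := h2.mul h3
  rw [mul_one] at h4
  -- the part of `em`
  set M := ∑' k, |coeff k (f1 p)| with hM
  have h5 : ∀ n, |em p n| ≤ M := by
    intro n
    have h6 : em p n = ∑ k ∈ Finset.range (n + 1), coeff k (f1 p) := by
      rw [← coeff_mul_gg, ← eser_eq, eser, coeff_mk]
    rw [h6]
    exact (Finset.abs_sum_le_sum_abs _ _).trans
      (Summable.sum_le_tsum _ (fun k _ => abs_nonneg _) (f1_AS p hrec))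
  have h7 : Tendsto (fun n : ℕ => em p (n + (p + 1)) ^ 2 / ((n + (p + 1) : ℕ) : ℝ)) atTop
      (𝓝 0) := by
    have h8 : Tendsto (fun n : ℕ => M ^ 2 / ((n + (p + 1) : ℕ) : ℝ)) atTop (𝓝 0) :=
      (tendsto_const_div_atTop_nhds_zero_nat (M ^ 2)).comp (tendsto_add_atTop_nat (p + 1))
    refine squeeze_zero (fun n => by positivity) (fun n => ?_) h8
    have h9 : em p (n + (p + 1)) ^ 2 ≤ M ^ 2 := by
      rw [← sq_abs]
      exact pow_le_pow_left₀ (abs_nonneg _) (h5 _) 2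
    exact div_le_div_of_nonneg_right h9 (Nat.cast_nonneg _)
  have h10 := h4.sub h7
  rw [sub_zero] at h10
  refine h10.congr fun n => ?_
  have h11 : coeff (n + 1) (Gser p) = sm p (n + (p + 1)) := by
    rw [Gser, coeff_mk, if_neg (Nat.succ_ne_zero n)]
    congr 1; ring
  have h12 : sec (p + 1) (n + (p + 1)) - mean (p + 1) (n + (p + 1)) ^ 2 =
      sm p (n + (p + 1)) - em p (n + (p + 1)) ^ 2 := by
    unfold sm em; ring
  rw [h11, h12]
  push_cast
  have h13 : (n : ℝ) + 1 + 1 ≠ 0 := by positivity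
  have h14 : (n : ℝ) + (p + 1) ≠ 0 := by positivity
  field_simp
  ring

end

end R47.RSA
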