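import Mathlib
import Pool.Agent.R47.RSA.Defs

/-!
The recurrences for the first two moments of the jamming count (helper508 for helper47,
MP_669328_pr).
-/

namespace R47.RSA
open Finset

lemma Ex_empty (r : ℕ) (f : ℕ → ℝ) (k : ℕ) (A : Finset ℕ) (h : ¬ (avail r A).Nonempty) :
    Ex r f k A = f k := by
  rw [Ex, if_neg h]

lemma Ex_mul (r : ℕ) (f : ℕ → ℝ) (k : ℕ) (A : Finset ℕ) :
    ((avail r A).card : ℝ) * Ex r f k A
      = ∑ b ∈ avail r A, Ex r f (k + 1) (A \ Finset.Ico b (b + r)) := by
  by_cases h : (avail r A).Nonempty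
  · rw [Ex, if_pos h, Finset.sum_attach (avail r A)
      (fun b => Ex r f (k + 1) (A \ Finset.Ico b (b + r)))]
    have : ((avail r A).card : ℝ) ≠ 0 := by
      have := Finset.card_pos.2 h
      exact_mod_cast this.ne'
    field_simp
  · rw [Finset.not_nonempty_iff_eq_empty] at h
    rw [h]; simp

/-- induction principle -/
lemma ex_ext (r : ℕ) (P : ℕ → Finset ℕ → ℝ) (f : ℕ → ℝ)
    (h0 : ∀ k A, ¬ (avail r A).Nonempty → P k A = f k)
    (h1 : ∀ k A, (avail r A).Nonempty → ((avail r A).card : ℝ) * P k A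
      = ∑ b ∈ avail r A, P (k + 1) (A \ Finset.Ico b (b + r))) :
    ∀ (n : ℕ) (A : Finset ℕ), A.card ≤ n → ∀ k, P k A = Ex r f k A := by
  intro n
  induction n with
  | zero =>
    intro A hA k
    have hA0 : A = ∅ := Finset.card_eq_zero.1 (by omega)
    have h : ¬ (avail r A).Nonempty := by
      rintro ⟨b, hb⟩
      have := (mem_avail.1 hb).1
      rw [hA0] at this
      simp at this
    rw [h0 k A h, Ex_empty r f k A h]
  | succ n ih =>
    intro A hA k
    by_cases h : (avail r A).Nonempty
    · have hc : ((avail r A).card : ℝ) ≠ 0 := by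
        have := Finset.card_pos.2 h
        exact_mod_cast this.ne'
      apply mul_left_cancel₀ hc
      rw [h1 k A h, Ex_mul]
      refine Finset.sum_congr rfl fun b hb => ?_
      exact ih _ (by have := card_lt hb; omega) _
    · rw [h0 k A h, Ex_empty r f k A h]

lemma Ex_shift (r : ℕ) (f : ℕ → ℝ) (j k : ℕ) (A : Finset ℕ) :
    Ex r f (k + j) A = Ex r (fun i => f (i + j)) k A := by
  refine ex_ext r (fun k A => Ex r f (k + j) A) (fun i => f (i + j)) ?_ ?_ A.card A le_rfl k
  · intro k A h
    exact Ex_empty r f _ A h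
  · intro k A h
    show ((avail r A).card : ℝ) * Ex r f (k + j) A = _
    rw [Ex_mul]
    refine Finset.sum_congr rfl fun b _ => ?_
    show Ex r f (k + j + 1) _ = Ex r f (k + 1 + j) _
    rw [show k + j + 1 = k + 1 + j by ring]

lemma Ex_const (r : ℕ) (c : ℝ) (k : ℕ) (A : Finset ℕ) : Ex r (fun _ => c) k A = c := by
  symm
  refine ex_ext r (fun _ _ => c) (fun _ => c) (fun _ _ _ => rfl) ?_ A.card A le_rfl k
  intro k A h
  simp

lemma Ex_add (r : ℕ) (f g : ℕ → ℝ) (k : ℕ) (A : Finset ℕ) :
    Ex r (fun i => f i + g i) k A = Ex r f k A + Ex r g k A := by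
  symm
  refine ex_ext r (fun k A => Ex r f k A + Ex r g k A) (fun i => f i + g i) ?_ ?_ A.card A le_rfl k
  · intro k A h
    show Ex r f k A + Ex r g k A = _
    rw [Ex_empty r f _ A h, Ex_empty r g _ A h]
  · intro k A h
    show ((avail r A).card : ℝ) * (Ex r f k A + Ex r g k A) = _
    rw [mul_add, Ex_mul, Ex_mul, ← Finset.sum_add_distrib]

lemma Ex_smul (r : ℕ) (c : ℝ) (f : ℕ → ℝ) (k : ℕ) (A : Finset ℕ) :
    Ex r (fun i => c * f i) k A = c * Ex r f k A := by
  symm
  refine ex_ext r (fun k A => c * Ex r f k A) (fun i => c * f i) ?_ ?_ A.card A le_rfl k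
  · intro k A h
    show c * Ex r f k A = _
    rw [Ex_empty r f _ A h]
  · intro k A h
    show ((avail r A).card : ℝ) * (c * Ex r f k A) = _
    rw [mul_left_comm, Ex_mul, Finset.mul_sum]

lemma Ex_sum (r : ℕ) {ι : Type*} (s : Finset ι) (g : ι → ℕ → ℝ) (k : ℕ) (A : Finset ℕ) :
    Ex r (fun i => ∑ y ∈ s, g y i) k A = ∑ y ∈ s, Ex r (g y) k A := by
  classical
  induction s using Finset.induction_on with
  | empty => simp [Ex_const]
  | insert y s hy ih =>
    rw [Finset.sum_insert hy, ← ih, ← Ex_add]
    congr 1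
    funext i
    rw [Finset.sum_insert hy]

lemma avail_union (r t : ℕ) (A B : Finset ℕ) (hA : ∀ a ∈ A, a < t) (hB : ∀ b ∈ B, t < b) :
    avail r (A ∪ B) = avail r A ∪ avail r B := by
  ext b
  rw [Finset.mem_union, mem_avail, mem_avail, mem_avail, Finset.mem_union]
  have ht : t ∉ A ∪ B := by
    rw [Finset.mem_union]
    rintro (h | h)
    · exact absurd (hA t h) (lt_irrefl _)
    · exact absurd (hB t h) (lt_irrefl _)
  constructor
  · rintro ⟨hb | hb, hr, hs⟩
    · left
      refine ⟨hb, hr, fun y hy => ?_⟩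
      have h1 := Finset.mem_union.1 (hs hy)
      rcases h1 with h1 | h1
      · exact h1
      · exfalso
        have h2 := hB y h1
        have h3 := hA b hb
        rw [Finset.mem_Ico] at hy
        exact ht (hs (Finset.mem_Ico.2 ⟨h3.le, by omega⟩))
    · right
      refine ⟨hb, hr, fun y hy => ?_⟩
      have h1 := Finset.mem_union.1 (hs hy)
      rcases h1 with h1 | h1
      · exfalso
        have h2 := hA y h1
        have h3 := hB b hb
        rw [Finset.mem_Ico] at hy
        omega
      · exact h1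
  · rintro (⟨hb, hr, hs⟩ | ⟨hb, hr, hs⟩)
    · exact ⟨Or.inl hb, hr, hs.trans Finset.subset_union_left⟩
    · exact ⟨Or.inr hb, hr, hs.trans Finset.subset_union_right⟩

lemma Ex_split (r t : ℕ) (f : ℕ → ℝ) : ∀ (n : ℕ) (A B : Finset ℕ), A.card + B.card ≤ n →
    (∀ a ∈ A, a < t) → (∀ b ∈ B, t < b) → ∀ k,
    Ex r f k (A ∪ B) = Ex r (fun j => Ex r f j B) k A := by
  intro n
  induction n with
  | zero =>
    intro A B hc hA hB k
    have hA0 : A = ∅ := Finset.card_eq_zero.1 (by omega)
    have hB0 : B = ∅ := Finset.card_eq_zero.1 (by omega)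
    have h : ¬ (avail r (∅ : Finset ℕ)).Nonempty := by
      rintro ⟨b, hb⟩
      have := (mem_avail.1 hb).1
      simp at this
    rw [hA0, hB0, Finset.empty_union, Ex_empty r _ _ _ h, Ex_empty r _ _ _ h,
      Ex_empty r _ _ _ h]
  | succ n ih =>
    intro A B hc hA hB k
    have hdisj : Disjoint A B := by
      rw [Finset.disjoint_left]
      intro x h1 h2
      have := hA x h1
      have := hB x h2
      omega
    have hdisj' : Disjoint (avail r A) (avail r B) := by
      rw [Finset.disjoint_left]
      intro x h1 h2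
      exact Finset.disjoint_left.1 hdisj (mem_avail.1 h1).1 (mem_avail.1 h2).1
    have hu := avail_union r t A B hA hB
    by_cases hne : (avail r (A ∪ B)).Nonempty
    · have hcard : ((avail r (A ∪ B)).card : ℝ) ≠ 0 := by
        have := Finset.card_pos.2 hne
        exact_mod_cast this.ne'
      apply mul_left_cancel₀ hcard
      rw [Ex_mul, hu, Finset.sum_union hdisj', Finset.card_union_of_disjoint hdisj']
      have e1 : ∑ b ∈ avail r A, Ex r f (k + 1) ((A ∪ B) \ Finset.Ico b (b + r))
          = ((avail r A).card : ℝ) * Ex r (fun j => Ex r f j B) k A := by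
        rw [Ex_mul]
        refine Finset.sum_congr rfl fun b hb => ?_
        have h1 : (A ∪ B) \ Finset.Ico b (b + r) = (A \ Finset.Ico b (b + r)) ∪ B := by
          rw [Finset.union_sdiff_distrib, Finset.sdiff_eq_self_of_disjoint (s := B)]
          exact (Finset.disjoint_of_subset_left (mem_avail.1 hb).2.2 hdisj).symm
        rw [h1]
        exact ih _ _ (by have := card_lt hb; omega)
          (fun a ha => hA a (Finset.sdiff_subset ha)) hB _
      have e2 : ∑ b ∈ avail r B, Ex r f (k + 1) ((A ∪ B) \ Finset.Ico b (b + r))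
          = ((avail r B).card : ℝ) * Ex r (fun j => Ex r f j B) k A := by
        rw [← Ex_smul]
        have h2 : (fun j => ((avail r B).card : ℝ) * Ex r f j B)
            = fun j => ∑ b ∈ avail r B, Ex r f (j + 1) (B \ Finset.Ico b (b + r)) := by
          funext j
          rw [Ex_mul]
        rw [h2, Ex_sum]
        refine Finset.sum_congr rfl fun b hb => ?_
        have h1 : (A ∪ B) \ Finset.Ico b (b + r) = A ∪ (B \ Finset.Ico b (b + r)) := by
          rw [Finset.union_sdiff_distrib, Finset.sdiff_eq_self_of_disjoint (s := A)]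
          exact Finset.disjoint_of_subset_right (mem_avail.1 hb).2.2 hdisj
        rw [h1, ih A (B \ Finset.Ico b (b + r)) (by have := card_lt hb; omega) hA
          (fun a ha => hB a (Finset.sdiff_subset ha)) (k + 1), Ex_shift]
      rw [e1, e2]
      push_cast
      ring
    · have h1 : ¬ (avail r A).Nonempty := fun h => hne (by
        rw [hu]; exact h.mono Finset.subset_union_left)
      have h2 : ¬ (avail r B).Nonempty := fun h => hne (by
        rw [hu]; exact h.mono Finset.subset_union_right)
      rw [Ex_empty r _ _ _ hne, Ex_empty r _ _ _ h1, Ex_empty r _ _ _ h2]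

lemma avail_map (r t : ℕ) (A : Finset ℕ) :
    avail r (A.map (addRightEmbedding t)) = (avail r A).map (addRightEmbedding t) := by
  ext b
  constructor
  · intro hb0
    obtain ⟨hb, hr, hs⟩ := mem_avail.1 hb0
    obtain ⟨a, ha, rfl⟩ := Finset.mem_map.1 hb
    refine Finset.mem_map.2 ⟨a, mem_avail.2 ⟨ha, hr, ?_⟩, rfl⟩
    have h1 : (Finset.Ico a (a + r)).map (addRightEmbedding t)
        = Finset.Ico (a + t) (a + r + t) := Finset.map_add_right_Ico _ _ _
    have h2 : Finset.Ico (a + t) (a + r + t) ⊆ A.map (addRightEmbedding t) := by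
      have : a + r + t = a + t + r := by ring
      rw [this]; exact hs
    rw [← h1] at h2
    exact Finset.map_subset_map.1 h2
  · intro hb0
    obtain ⟨a, ha, rfl⟩ := Finset.mem_map.1 hb0
    have ha' := mem_avail.1 ha
    refine mem_avail.2 ⟨Finset.mem_map_of_mem _ ha'.1, ha'.2.1, ?_⟩
    have h1 : (Finset.Ico a (a + r)).map (addRightEmbedding t)
        = Finset.Ico (a + t) (a + r + t) := Finset.map_add_right_Ico _ _ _
    have h2 := Finset.map_subset_map (f := addRightEmbedding t).2 ha'.2.2
    rw [h1] at h2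
    have : a + r + t = a + t + r := by ring
    rw [this] at h2
    exact h2

lemma Ex_map (r t : ℕ) (f : ℕ → ℝ) (k : ℕ) (A : Finset ℕ) :
    Ex r f k (A.map (addRightEmbedding t)) = Ex r f k A := by
  refine ex_ext r (fun k A => Ex r f k (A.map (addRightEmbedding t))) f ?_ ?_ A.card A le_rfl k
  · intro k A h
    apply Ex_empty
    rw [avail_map, Finset.map_nonempty]
    exact h
  · intro k A h
    show ((avail r A).card : ℝ) * Ex r f k (A.map (addRightEmbedding t)) = _
    have h1 := Ex_mul r f k (A.map (addRightEmbedding t))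
    rw [avail_map, Finset.card_map, Finset.sum_map] at h1
    rw [h1]
    refine Finset.sum_congr rfl fun b _ => ?_
    have h2 : A.map (addRightEmbedding t) \ Finset.Ico (addRightEmbedding t b)
        (addRightEmbedding t b + r) = (A \ Finset.Ico b (b + r)).map (addRightEmbedding t) := by
      have h3 : (Finset.Ico b (b + r)).map (addRightEmbedding t)
        = Finset.Ico (b + t) (b + r + t) := Finset.map_add_right_Ico _ _ _
      have h4 : Finset.Ico (addRightEmbedding t b) (addRightEmbedding t b + r)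
          = Finset.Ico (b + t) (b + r + t) := by
        show Finset.Ico (b + t) (b + t + r) = _
        rw [show b + t + r = b + r + t by ring]
      rw [h4, ← h3, Finset.map_sdiff]
    rw [h2]

lemma Ex_id (r j : ℕ) (B : Finset ℕ) :
    Ex r (fun k => (k : ℝ)) j B = j + Ex r (fun k => (k : ℝ)) 0 B := by
  have h := Ex_shift r (fun k => (k : ℝ)) j 0 B
  rw [zero_add] at h
  rw [h]
  have h1 : (fun i : ℕ => (((i + j : ℕ)) : ℝ)) = fun i : ℕ => (j : ℝ) + (i : ℝ) := by
    funext i; push_cast; ring
  rw [h1, Ex_add, Ex_const]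

lemma Ex_sq (r j : ℕ) (B : Finset ℕ) :
    Ex r (fun k => (k : ℝ) ^ 2) j B = (j : ℝ) ^ 2 + (2 * j) * Ex r (fun k => (k : ℝ)) 0 B
      + Ex r (fun k => (k : ℝ) ^ 2) 0 B := by
  have h := Ex_shift r (fun k => (k : ℝ) ^ 2) j 0 B
  rw [zero_add] at h
  rw [h]
  have h1 : (fun i : ℕ => (((i + j : ℕ)) : ℝ) ^ 2)
      = fun i : ℕ => ((j : ℝ) ^ 2 + (2 * (j : ℝ)) * (i : ℝ)) + (i : ℝ) ^ 2 := by
    funext i; push_cast; ring
  rw [h1, Ex_add, Ex_add, Ex_const, Ex_smul]

theorem rec_stm : RecStm := by
  intro r hr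
  have hav : ∀ m, avail r (range (m + r)) = range (m + 1) := by
    intro m
    ext b
    rw [mem_avail, Finset.mem_range, Finset.mem_range]
    constructor
    · rintro ⟨h1, h2, h3⟩
      have := h3 (Finset.mem_Ico.2 ⟨(by omega : b ≤ b + r - 1), by omega⟩)
      rw [Finset.mem_range] at this
      omega
    · intro h
      refine ⟨by omega, by omega, fun y hy => ?_⟩
      rw [Finset.mem_Ico] at hy
      rw [Finset.mem_range]
      omega
  have hset : ∀ m i, i ≤ m → range (m + r) \ Finset.Ico i (i + r)
      = range i ∪ (range (m - i)).map (addRightEmbedding (i + r)) := by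
    intro m i hi
    ext y
    simp only [Finset.mem_sdiff, Finset.mem_range, Finset.mem_Ico, Finset.mem_union,
      Finset.mem_map, addRightEmbedding_apply]
    constructor
    · rintro ⟨h1, h2⟩
      by_cases hy : y < i
      · exact Or.inl hy
      · exact Or.inr ⟨y - (i + r), by omega, by omega⟩
    · rintro (h | ⟨a, h1, h2⟩)
      · constructor <;> omega
      · constructor <;> omega
  have hsplit : ∀ (f : ℕ → ℝ) m i, i ≤ m → Ex r f 1 (range (m + r) \ Finset.Ico i (i + r))
      = Ex r (fun j => Ex r f j (range (m - i))) 1 (range i) := by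
    intro f m i hi
    rw [hset m i hi, Ex_split r i f _ _ _ le_rfl (fun a ha => Finset.mem_range.1 ha)
      (fun b hb => by
        obtain ⟨a, _, rfl⟩ := Finset.mem_map.1 hb
        simp only [addRightEmbedding_apply]
        omega)]
    simp only [Ex_map]
  refine ⟨fun n hn => ?_, fun m => ?_, fun m => ?_⟩
  · have h : ¬ (avail r (range n)).Nonempty := by
      rintro ⟨b, hb⟩
      obtain ⟨h1, h2, h3⟩ := mem_avail.1 hb
      have := h3 (Finset.mem_Ico.2 ⟨(by omega : b ≤ b + r - 1), by omega⟩)
      rw [Finset.mem_range] at this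
      omega
    unfold mean sec
    rw [Ex_empty r _ _ _ h, Ex_empty r _ _ _ h]
    simp
  · have h1 := Ex_mul r (fun k => (k : ℝ)) 0 (range (m + r))
    rw [hav, Finset.card_range] at h1
    unfold mean
    push_cast at h1
    rw [h1]
    refine Finset.sum_congr rfl fun i hi => ?_
    rw [hsplit _ m i (by rw [Finset.mem_range] at hi; omega)]
    have h3 : (fun j : ℕ => Ex r (fun k => (k : ℝ)) j (range (m - i)))
        = fun j : ℕ => (j : ℝ) + Ex r (fun k => (k : ℝ)) 0 (range (m - i)) :=
      funext fun j => Ex_id r j _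
    rw [h3, Ex_add, Ex_const, Ex_id]
    push_cast
    ring
  · have h1 := Ex_mul r (fun k => (k : ℝ) ^ 2) 0 (range (m + r))
    rw [hav, Finset.card_range] at h1
    unfold mean sec
    push_cast at h1
    rw [h1]
    refine Finset.sum_congr rfl fun i hi => ?_
    rw [hsplit _ m i (by rw [Finset.mem_range] at hi; omega)]
    have h2 : (fun j : ℕ => Ex r (fun k => (k : ℝ) ^ 2) j (range (m - i)))
        = fun j : ℕ => ((j : ℝ) ^ 2 + (2 * Ex r (fun k => (k : ℝ)) 0 (range (m - i))) * (j : ℝ))
        + Ex r (fun k => (k : ℝ) ^ 2) 0 (range (m - i)) := by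
      funext j
      rw [Ex_sq]
      ring
    have h4 : Ex r (fun j : ℕ => (2 * Ex r (fun k => (k : ℝ)) 0 (range (m - i))) * (j : ℝ)) 1
        (range i) = (2 * Ex r (fun k => (k : ℝ)) 0 (range (m - i)))
          * Ex r (fun k => (k : ℝ)) 1 (range i) := Ex_smul r _ (fun k => (k : ℝ)) 1 _
    rw [h2, Ex_add, Ex_add, Ex_const, h4, Ex_id r 1 (range i), Ex_sq]
    push_cast
    ring

end R47.RSA
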